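import Mathlib

set_option autoImplicit false

namespace Pool.Agent.Results.MP_e8c887_nt.IrrationalHeight

open Polynomial Filter Topology

/-- A rational map `ℙ¹ → ℙ¹` of degree `d` over the field `K`, written as `num / den` in lowest
terms: `num` and `den` are coprime and the larger of their degrees is `d`. -/
structure RationalMap (K : Type*) [Field K] (d : ℕ) where
  /-- the numerator -/
  num : K[X]
  /-- the denominator -/
  den : K[X]
  coprime : IsCoprime num den
  degree_eq : max num.natDegree den.natDegree = d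

/-- The action of a rational map on `ℙ¹(K) = K ∪ {∞}`. -/
noncomputable def RationalMap.map {K : Type*} [Field K] {d : ℕ} (Φ : RationalMap K d) :
    OnePoint K → OnePoint K := by
  classical
  exact fun P => match P with
  | none => if Φ.den.coeff d = 0 then OnePoint.infty
      else ((Φ.num.coeff d / Φ.den.coeff d : K) : OnePoint K)
  | some z => if Φ.den.eval z = 0 then OnePoint.infty
      else ((Φ.num.eval z / Φ.den.eval z : K) : OnePoint K)

/-- The Weil height on `ℙ¹(k(t))`: `h([a : b]) = max (deg a) (deg b)` for coprime polynomials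
`a, b ∈ k[t]`.  So `h(∞) = 0`, and `h(z)` is the larger of the degrees of the numerator and the
denominator of `z` in lowest terms. -/
noncomputable def height {k : Type*} [Field k] : OnePoint (RatFunc k) → ℕ
  | none => 0
  | some z => max z.num.natDegree z.denom.natDegree

/-- `η` is the canonical height of the point `P` for the map `Φ`. -/
def IsCanonicalHeight {k : Type*} [Field k] {d : ℕ} (Φ : RationalMap (RatFunc k) d)
    (P : OnePoint (RatFunc k)) (η : ℝ) : Prop :=
  Tendsto (fun n : ℕ => (height (Φ.map^[n] P) : ℝ) / (d : ℝ) ^ n) atTop (𝓝 η)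

/-! ### The combinatorial recursion over `𝔽₂[t]` -/

/-- The polynomial ring `𝔽₂[t]`. -/
abbrev R := (ZMod 2)[X]

/-- one step of the reduced recursion -/
noncomputable def step (s : R × R) : R × R := by
  classical
  exact if s.1.eval 0 = 0 then
    (s.1.divX * (X * s.1.divX + s.2) * (X * s.1.divX ^ 2 + s.2 ^ 2) + s.2 ^ 4,
      s.2 ^ 2 * (X * s.1.divX ^ 2 + s.2 ^ 2))
  else
    (s.1 * (s.1 + s.2).divX * (s.1 ^ 2 + X * s.2 ^ 2) + X * s.2 ^ 4,
      s.2 ^ 2 * (s.1 ^ 2 + X * s.2 ^ 2))

/-- the digit -/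
noncomputable def dig (s : R × R) : ℕ := by
  classical
  exact if s.1.eval 0 = 0 then 2 else 1

/-- the invariant -/
structure Inv (s : R × R) : Prop where
  cop : IsCoprime s.1 s.2
  b0 : s.2.eval 0 = 1
  deg : s.2.natDegree + 2 ≤ s.1.natDegree

theorem zmod2 (x : ZMod 2) (h : x ≠ 0) : x = 1 := by
  revert x; decide

/-- homogeneous numerator -/
noncomputable def F0 (s : R × R) : R := s.1 * (s.1 + s.2) * (s.1 ^ 2 + X * s.2 ^ 2) + X ^ 2 * s.2 ^ 4

/-- homogeneous denominator -/
noncomputable def F1 (s : R × R) : R := X * s.2 ^ 2 * (s.1 ^ 2 + X * s.2 ^ 2)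

theorem divX_eq (p : R) (h : p.eval 0 = 0) : X * p.divX = p := by
  have := Polynomial.X_mul_divX_add p
  rwa [coeff_zero_eq_eval_zero, h, C_0, add_zero] at this

theorem sum0 (s : R × R) (hs : Inv s) (h : s.1.eval 0 ≠ 0) : (s.1 + s.2).eval 0 = 0 := by
  rw [eval_add, zmod2 _ h, hs.b0]; decide

theorem F0_step (s : R × R) (hs : Inv s) : F0 s = X ^ dig s * (step s).1 := by
  unfold F0 dig step
  by_cases h : s.1.eval 0 = 0
  · simp only [h, if_true]
    have h1 := divX_eq s.1 h
    set a' := s.1.divX with ha'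
    rw [← h1]; ring
  · simp only [h, if_false]
    have h1 := divX_eq (s.1 + s.2) (sum0 s hs h)
    set c := (s.1 + s.2).divX with hc
    rw [← h1]; ring

theorem F1_step (s : R × R) : F1 s = X ^ dig s * (step s).2 := by
  unfold F1 dig step
  by_cases h : s.1.eval 0 = 0
  · simp only [h, if_true]
    have h1 := divX_eq s.1 h
    set a' := s.1.divX with ha'
    rw [← h1]; ring
  · simp only [h, if_false]
    ring

theorem X_coprime (p : R) (h : p.eval 0 ≠ 0) : IsCoprime (X : R) p := by
  rw [(Polynomial.irreducible_X).coprime_iff_not_dvd, Polynomial.X_dvd_iff,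
    coeff_zero_eq_eval_zero]
  exact h

theorem step_b0 (s : R × R) (hs : Inv s) : (step s).2.eval 0 = 1 := by
  unfold step
  by_cases h : s.1.eval 0 = 0
  · simp [h, hs.b0]
  · simp [hs.b0, zmod2 _ h]

theorem step_cop (s : R × R) (hs : Inv s) : IsCoprime (step s).1 (step s).2 := by
  have hcop := hs.cop
  unfold step
  by_cases h : s.1.eval 0 = 0
  · simp only [h, if_true]
    have h1 := divX_eq s.1 h
    set a' := s.1.divX with ha'
    set b := s.2 with hb
    rw [← h1] at hcop
    have hXb : IsCoprime X b := hcop.of_mul_left_left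
    have hab : IsCoprime a' b := hcop.of_mul_left_right
    refine IsCoprime.mul_right (IsCoprime.pow_right ?_) ?_
    · have e : a' * (X * a' + b) * (X * a' ^ 2 + b ^ 2) + b ^ 4 =
          X ^ 2 * a' ^ 4 + b * (X * a' ^ 2 * b + X * a' ^ 3 + a' * b ^ 2 + b ^ 3) := by ring
      rw [e]
      exact (IsCoprime.mul_left hXb.pow_left hab.pow_left).add_mul_left_left _
    · have e : a' * (X * a' + b) * (X * a' ^ 2 + b ^ 2) + b ^ 4 =
          b ^ 4 + (X * a' ^ 2 + b ^ 2) * (a' * (X * a' + b)) := by ring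
      rw [e]
      refine IsCoprime.add_mul_left_left (IsCoprime.pow_left ?_) _
      have e2 : X * a' ^ 2 + b ^ 2 = X * a' ^ 2 + b * b := by ring
      rw [e2]
      exact (IsCoprime.mul_right hXb.symm hab.symm.pow_right).add_mul_left_right _
  · simp only [h, if_false]
    have h1 := divX_eq (s.1 + s.2) (sum0 s hs h)
    set c := (s.1 + s.2).divX with hc
    set b := s.2 with hb
    set a := s.1 with ha
    have hXc : IsCoprime (X * c) b := by
      rw [h1]
      have := hcop.add_mul_left_left 1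
      rwa [mul_one] at this
    have hcb : IsCoprime c b := hXc.of_mul_left_right
    have hXa : IsCoprime X a := X_coprime a h
    refine IsCoprime.mul_right (IsCoprime.pow_right ?_) ?_
    · have e : a * c * (a ^ 2 + X * b ^ 2) + X * b ^ 4 =
          a ^ 3 * c + b * (a * c * X * b + X * b ^ 3) := by ring
      rw [e]
      exact (IsCoprime.mul_left hcop.pow_left hcb).add_mul_left_left _
    · have e : a * c * (a ^ 2 + X * b ^ 2) + X * b ^ 4 =
          X * b ^ 4 + (a ^ 2 + X * b ^ 2) * (a * c) := by ring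
      rw [e]
      refine IsCoprime.add_mul_left_left (IsCoprime.mul_left ?_ (IsCoprime.pow_left ?_)) _
      · exact (hXa.pow_right).add_mul_left_right _
      · have e2 : a ^ 2 + X * b ^ 2 = a ^ 2 + b * (X * b) := by ring
        rw [e2]
        exact (hcop.symm.pow_right).add_mul_left_right _

theorem step_ne_zero (s : R × R) (hs : Inv s) : (step s).2 ≠ 0 := by
  intro h
  have := step_b0 s hs
  rw [h] at this
  simp at this

theorem deg_inner (s : R × R) (hs : Inv s) :
    (s.1 ^ 2 + X * s.2 ^ 2).natDegree = 2 * s.1.natDegree := by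
  have hd := hs.deg
  rw [natDegree_add_eq_left_of_natDegree_lt, natDegree_pow]
  have h1 : (X * s.2 ^ 2 : R).natDegree ≤ 1 + 2 * s.2.natDegree := by
    refine natDegree_mul_le.trans ?_
    rw [natDegree_X, natDegree_pow]
  rw [natDegree_pow]
  omega

theorem ne_zero_left (s : R × R) (hs : Inv s) : s.1 ≠ 0 := by
  intro h
  have := hs.deg
  rw [h] at this
  simp at this

theorem ne_zero_right (s : R × R) (hs : Inv s) : s.2 ≠ 0 := by
  intro h
  have := hs.b0
  rw [h] at this
  simp at this

theorem deg_F0 (s : R × R) (hs : Inv s) : (F0 s).natDegree = 4 * s.1.natDegree := by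
  have hd := hs.deg
  have ha := ne_zero_left s hs
  have h1 : (s.1 + s.2).natDegree = s.1.natDegree :=
    natDegree_add_eq_left_of_natDegree_lt (by omega)
  have h1' : s.1 + s.2 ≠ 0 := by
    intro h; rw [h, natDegree_zero] at h1; omega
  have h2 := deg_inner s hs
  have h2' : s.1 ^ 2 + X * s.2 ^ 2 ≠ 0 := by
    intro h; rw [h, natDegree_zero] at h2; omega
  have h3 : (s.1 * (s.1 + s.2) * (s.1 ^ 2 + X * s.2 ^ 2)).natDegree = 4 * s.1.natDegree := by
    rw [natDegree_mul (mul_ne_zero ha h1') h2', natDegree_mul ha h1', h1, h2]; ring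
  unfold F0
  rw [natDegree_add_eq_left_of_natDegree_lt, h3]
  rw [h3]
  have h4 : (X ^ 2 * s.2 ^ 4 : R).natDegree ≤ 2 + 4 * s.2.natDegree := by
    refine natDegree_mul_le.trans ?_
    rw [natDegree_X_pow, natDegree_pow]
  omega

theorem deg_F1 (s : R × R) (hs : Inv s) :
    (F1 s).natDegree = 1 + 2 * s.2.natDegree + 2 * s.1.natDegree := by
  have hd := hs.deg
  have h2 := deg_inner s hs
  have h2' : s.1 ^ 2 + X * s.2 ^ 2 ≠ 0 := by
    intro h; rw [h, natDegree_zero] at h2; omega
  have hb := ne_zero_right s hs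
  unfold F1
  rw [natDegree_mul (mul_ne_zero X_ne_zero (pow_ne_zero 2 hb)) h2',
    natDegree_mul X_ne_zero (pow_ne_zero 2 hb), natDegree_X, natDegree_pow, h2]

theorem dig_cases (s : R × R) : dig s = 1 ∨ dig s = 2 := by
  unfold dig
  by_cases h : s.1.eval 0 = 0
  · right; simp [h]
  · left; simp [h]

theorem step_fst_ne (s : R × R) (hs : Inv s) : (step s).1 ≠ 0 := by
  intro h
  have h1 := F0_step s hs
  have h2 := deg_F0 s hs
  rw [h1, h, mul_zero, natDegree_zero] at h2
  have := hs.deg
  omega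

theorem step_deg1 (s : R × R) (hs : Inv s) :
    (step s).1.natDegree + dig s = 4 * s.1.natDegree := by
  have h1 := F0_step s hs
  have h2 := deg_F0 s hs
  rw [h1, natDegree_mul (pow_ne_zero _ X_ne_zero) (step_fst_ne s hs), natDegree_X_pow] at h2
  omega

theorem step_deg2 (s : R × R) (hs : Inv s) :
    (step s).2.natDegree + dig s = 1 + 2 * s.2.natDegree + 2 * s.1.natDegree := by
  have h1 := F1_step s
  have h2 := deg_F1 s hs
  rw [h1, natDegree_mul (pow_ne_zero _ X_ne_zero) (step_ne_zero s hs), natDegree_X_pow] at h2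
  omega

theorem step_inv (s : R × R) (hs : Inv s) : Inv (step s) := by
  refine ⟨step_cop s hs, step_b0 s hs, ?_⟩
  have h1 := step_deg1 s hs
  have h2 := step_deg2 s hs
  have h3 := hs.deg
  rcases dig_cases s with h | h <;> omega

/-- cross difference -/
noncomputable def D (s s' : R × R) : R := s.1 * s'.2 - s'.1 * s.2

theorem expand (s s' : R × R) (hs : Inv s) (hs' : Inv s') (h : s.1.eval 0 = s'.1.eval 0) :
    ∃ W : R, W.eval 0 ≠ 0 ∧ X * D (step s) (step s') = D s s' * W := by
  have e0 := F0_step s hs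
  have e0' := F0_step s' hs'
  have e1 := F1_step s
  have e1' := F1_step s'
  by_cases h0 : s.1.eval 0 = 0
  · have h0' : s'.1.eval 0 = 0 := by rw [← h, h0]
    have d : dig s = 2 := by unfold dig; simp [h0]
    have d' : dig s' = 2 := by unfold dig; simp [h0']
    rw [d] at e0 e1
    rw [d'] at e0' e1'
    have h1 := divX_eq s.1 h0
    have h1' := divX_eq s'.1 h0'
    refine ⟨(X * s.1.divX ^ 2 + s.2 ^ 2) * (X * s'.1.divX ^ 2 + s'.2 ^ 2) *
      (s.1 * s'.2 + s'.1 * s.2 + s.2 * s'.2) -
      s.2 ^ 2 * s'.2 ^ 2 * (s.1 * s'.2 + s'.1 * s.2), ?_, ?_⟩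
    · simp [h0, h0', hs.b0, hs'.b0]
    · have hX : (X ^ 3 : R) ≠ 0 := pow_ne_zero _ X_ne_zero
      apply mul_left_cancel₀ hX
      have e : X ^ 3 * (X * D (step s) (step s')) = F0 s * F1 s' - F0 s' * F1 s := by
        rw [e0, e0', e1, e1']; unfold D; ring
      rw [e]
      unfold F0 F1 D
      set a' := s.1.divX with ha'
      set c' := s'.1.divX with hc'
      rw [← h1, ← h1']
      ring
  · have h0' : s'.1.eval 0 ≠ 0 := by rw [← h]; exact h0
    have d : dig s = 1 := by unfold dig; simp [h0]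
    have d' : dig s' = 1 := by unfold dig; simp [h0']
    rw [d] at e0 e1
    rw [d'] at e0' e1'
    refine ⟨(s.1 ^ 2 + X * s.2 ^ 2) * (s'.1 ^ 2 + X * s'.2 ^ 2) *
      (s.1 * s'.2 + s'.1 * s.2 + s.2 * s'.2) -
      X ^ 2 * s.2 ^ 2 * s'.2 ^ 2 * (s.1 * s'.2 + s'.1 * s.2), ?_, ?_⟩
    · simp [zmod2 _ h0, zmod2 _ h0', hs.b0, hs'.b0]
      decide
    · have hX : (X : R) ≠ 0 := X_ne_zero
      apply mul_left_cancel₀ hX
      have e : X * (X * D (step s) (step s')) = F0 s * F1 s' - F0 s' * F1 s := by
        rw [e0, e0', e1, e1']; unfold D; ring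
      rw [e]
      unfold F0 F1 D
      ring

/-- the starting state `t² = t² / 1` -/
noncomputable def s0 : R × R := (X ^ 2, 1)

/-- the orbit -/
noncomputable def st (n : ℕ) : R × R := step^[n] s0

theorem st_succ (n : ℕ) : st (n + 1) = step (st n) := Function.iterate_succ_apply' _ _ _

theorem st_inv (n : ℕ) : Inv (st n) := by
  induction n with
  | zero =>
    refine ⟨?_, ?_, ?_⟩
    · exact isCoprime_one_right
    · simp [st, s0]
    · simp [st, s0]
  | succ n ih => rw [st_succ]; exact step_inv _ ih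

/-- the heights -/
noncomputable def ht (n : ℕ) : ℕ := (st n).1.natDegree

theorem ht_succ (n : ℕ) : ht (n + 1) + dig (st n) = 4 * ht n := by
  unfold ht
  rw [st_succ]
  exact step_deg1 _ (st_inv n)

theorem ht_two (n : ℕ) : 2 ≤ ht n := by
  have := (st_inv n).deg
  unfold ht; omega

theorem ht_strict : StrictMono ht := by
  apply strictMono_nat_of_lt_succ
  intro n
  have h1 := ht_succ n
  have h2 := ht_two n
  rcases dig_cases (st n) with h | h <;> omega

theorem dig_eq_iff (s s' : R × R) (h : dig s = dig s') : s.1.eval 0 = s'.1.eval 0 := by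
  unfold dig at h
  by_cases h1 : s.1.eval 0 = 0
  · by_cases h2 : s'.1.eval 0 = 0
    · rw [h1, h2]
    · simp [h1, h2] at h
  · by_cases h2 : s'.1.eval 0 = 0
    · simp [h1, h2] at h
    · rw [zmod2 _ h1, zmod2 _ h2]

theorem not_periodic (N M : ℕ) (hNM : N < M) : ∃ i, dig (st (N + i)) ≠ dig (st (M + i)) := by
  by_contra hcon
  push Not at hcon
  have hres : ∀ i, (st (N + i)).1.eval 0 = (st (M + i)).1.eval 0 := fun i =>
    dig_eq_iff _ _ (hcon i)
  have key : ∀ j i, X ^ j ∣ D (st (N + i)) (st (M + i)) := by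
    intro j
    induction j with
    | zero => intro i; simp
    | succ j ih =>
      intro i
      obtain ⟨W, hW, hW'⟩ := expand (st (N + i)) (st (M + i)) (st_inv _) (st_inv _) (hres i)
      have h1 := ih (i + 1)
      rw [← add_assoc, ← add_assoc, st_succ, st_succ] at h1
      have h2 : X ^ (j + 1) ∣ D (st (N + i)) (st (M + i)) * W := by
        rw [← hW', pow_succ']
        exact mul_dvd_mul_left X h1
      exact ((X_coprime W hW).pow_left).dvd_of_dvd_mul_right h2
  have h0 : D (st N) (st M) = 0 := by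
    have h1 := key ((D (st N) (st M)).natDegree + 1) 0
    simp only [add_zero] at h1
    apply Polynomial.eq_zero_of_dvd_of_natDegree_lt h1
    rw [natDegree_X_pow]; omega
  unfold D at h0
  rw [sub_eq_zero] at h0
  have h1 : (st N).1 ∣ (st M).1 := by
    apply (st_inv N).cop.dvd_of_dvd_mul_right
    rw [← h0]; exact dvd_mul_right _ _
  have h2 : (st M).1 ∣ (st N).1 := by
    apply (st_inv M).cop.dvd_of_dvd_mul_right
    rw [h0]; exact dvd_mul_right _ _
  have h3 := natDegree_le_of_dvd h1 (ne_zero_left _ (st_inv M))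
  have h4 := natDegree_le_of_dvd h2 (ne_zero_left _ (st_inv N))
  have h5 := ht_strict hNM
  unfold ht at h5
  omega

/-! ### The limit and its irrationality -/

theorem limit_exists (h r : ℕ → ℕ) (hr : ∀ n, r n = 1 ∨ r n = 2)
    (hh : ∀ n, h (n + 1) + r n = 4 * h n) :
    ∃ η : ℝ, Tendsto (fun n => (h n : ℝ) / 4 ^ n) atTop (𝓝 η) ∧
      ∀ n, 4 ^ n * η + 1 / 3 ≤ h n ∧ (h n : ℝ) ≤ 4 ^ n * η + 2 / 3 := by
  set lo : ℕ → ℝ := fun n => (h n : ℝ) / 4 ^ n - 2 / 3 / 4 ^ n with hlo
  set hi : ℕ → ℝ := fun n => (h n : ℝ) / 4 ^ n - 1 / 3 / 4 ^ n with hhi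
  have hstep : ∀ n, (h (n + 1) : ℝ) = 4 * h n - r n := by
    intro n
    have : ((h (n + 1) + r n : ℕ) : ℝ) = ((4 * h n : ℕ) : ℝ) := by rw [hh n]
    push_cast at this
    linarith
  have hr1 : ∀ n, (1 : ℝ) ≤ r n := by
    intro n; rcases hr n with h | h <;> rw [h] <;> norm_num
  have hr2 : ∀ n, (r n : ℝ) ≤ 2 := by
    intro n; rcases hr n with h | h <;> rw [h] <;> norm_num
  have hmono : Monotone lo := by
    apply monotone_nat_of_le_succ
    intro n
    simp only [hlo]
    rw [hstep n, pow_succ, div_sub_div_same, div_sub_div_same,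
      div_le_div_iff₀ (by positivity) (by positivity)]
    have h4 : (0 : ℝ) < 4 ^ n := by positivity
    have := hr2 n
    nlinarith
  have hanti : Antitone hi := by
    apply antitone_nat_of_succ_le
    intro n
    simp only [hhi]
    rw [hstep n, pow_succ, div_sub_div_same, div_sub_div_same,
      div_le_div_iff₀ (by positivity) (by positivity)]
    have h4 : (0 : ℝ) < 4 ^ n := by positivity
    have := hr1 n
    nlinarith
  have hlohi : ∀ n, lo n ≤ hi n := by
    intro n
    simp only [hlo, hhi]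
    have h4 : (0 : ℝ) < 4 ^ n := by positivity
    have : (1 / 3 : ℝ) / 4 ^ n ≤ 2 / 3 / 4 ^ n := by gcongr; norm_num
    linarith
  have hall : ∀ n m, lo n ≤ hi m := by
    intro n m
    calc lo n ≤ lo (max n m) := hmono (le_max_left _ _)
      _ ≤ hi (max n m) := hlohi _
      _ ≤ hi m := hanti (le_max_right _ _)
  set η : ℝ := ⨆ n, lo n with hη
  have hbdd : BddAbove (Set.range lo) := ⟨hi 0, by rintro _ ⟨n, rfl⟩; exact hall n 0⟩
  have h1 : ∀ n, lo n ≤ η := fun n => le_ciSup hbdd n
  have h2 : ∀ n, η ≤ hi n := fun n => ciSup_le fun m => hall m n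
  refine ⟨η, ?_, ?_⟩
  · have hz : Tendsto (fun n : ℕ => (2 / 3 : ℝ) / 4 ^ n) atTop (𝓝 0) := by
      have : Tendsto (fun n : ℕ => (1 / 4 : ℝ) ^ n) atTop (𝓝 0) :=
        tendsto_pow_atTop_nhds_zero_of_lt_one (by norm_num) (by norm_num)
      have := this.const_mul (2 / 3 : ℝ)
      simp only [mul_zero] at this
      refine this.congr fun n => ?_
      rw [one_div, inv_pow]; rfl
    have hup : Tendsto (fun n : ℕ => η + (2 / 3 : ℝ) / 4 ^ n) atTop (𝓝 η) := by
      have := (tendsto_const_nhds (x := η)).add hz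
      rwa [add_zero] at this
    refine tendsto_of_tendsto_of_tendsto_of_le_of_le tendsto_const_nhds hup ?_ ?_
    · intro n
      have := h2 n
      simp only [hhi] at this
      have h4 : (0 : ℝ) < 1 / 3 / 4 ^ n := by positivity
      simp only
      linarith
    · intro n
      have := h1 n
      simp only [hlo] at this
      simp only
      linarith
  · intro n
    have h3 := h1 n
    have h4 := h2 n
    simp only [hlo, hhi] at h3 h4
    have h5 : (0 : ℝ) < 4 ^ n := by positivity
    rw [div_sub_div_same] at h3 h4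
    rw [div_le_iff₀ h5] at h3
    rw [le_div_iff₀ h5] at h4
    constructor <;> linarith

theorem irrational_of (h r : ℕ → ℕ) (hr : ∀ n, r n = 1 ∨ r n = 2)
    (hh : ∀ n, h (n + 1) + r n = 4 * h n)
    (hper : ∀ N M, N < M → ∃ i, r (N + i) ≠ r (M + i)) (η : ℝ)
    (hη : ∀ n, 4 ^ n * η + 1 / 3 ≤ h n ∧ (h n : ℝ) ≤ 4 ^ n * η + 2 / 3) : Irrational η := by
  rintro ⟨x, hx⟩
  have hq : (0 : ℝ) < x.den := by exact_mod_cast x.den_pos
  have hxd : (x.num : ℝ) = η * x.den := by
    rw [← hx]
    exact_mod_cast (Rat.mul_den_eq_num x).symm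
  let f : ℕ → ℤ := fun n => (x.den : ℤ) * h n - 4 ^ n * x.num
  have hf : ∀ n, (f n : ℝ) = x.den * ((h n : ℝ) - 4 ^ n * η) := by
    intro n
    simp only [f]
    push_cast
    rw [hxd]; ring
  have hmem : ∀ n, f n ∈ Set.Icc (0 : ℤ) x.den := by
    intro n
    obtain ⟨h1, h2⟩ := hη n
    constructor
    · have : (0 : ℝ) ≤ f n := by rw [hf]; apply mul_nonneg hq.le; linarith
      exact_mod_cast this
    · have : (f n : ℝ) ≤ x.den := by
        rw [hf]
        calc (x.den : ℝ) * ((h n : ℝ) - 4 ^ n * η) ≤ x.den * 1 := by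
              apply mul_le_mul_of_nonneg_left _ hq.le; linarith
          _ = x.den := mul_one _
      exact_mod_cast this
  let g : ℕ → Set.Icc (0 : ℤ) x.den := fun n => ⟨f n, hmem n⟩
  obtain ⟨N, M, hne, hg⟩ := Finite.exists_ne_map_eq_of_infinite g
  have hfe : f N = f M := congrArg Subtype.val hg
  have htail : (h N : ℝ) - 4 ^ N * η = (h M : ℝ) - 4 ^ M * η := by
    have h1 : (f N : ℝ) = f M := by rw [hfe]
    rw [hf, hf] at h1
    exact mul_left_cancel₀ hq.ne' h1
  have hstep : ∀ n, (h (n + 1) : ℝ) - 4 ^ (n + 1) * η = 4 * ((h n : ℝ) - 4 ^ n * η) - r n := by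
    intro n
    have : ((h (n + 1) + r n : ℕ) : ℝ) = ((4 * h n : ℕ) : ℝ) := by rw [hh n]
    push_cast at this
    rw [pow_succ]
    linarith
  have hdig : ∀ n m, (h n : ℝ) - 4 ^ n * η = (h m : ℝ) - 4 ^ m * η → r n = r m := by
    intro n m hnm
    have h1 := hstep n
    have h2 := hstep m
    obtain ⟨a1, a2⟩ := hη (n + 1)
    obtain ⟨b1, b2⟩ := hη (m + 1)
    rw [hnm] at h1
    have h3 : (r n : ℝ) - r m < 1 := by linarith
    have h4 : (r m : ℝ) - r n < 1 := by linarith
    rcases hr n with c | c <;> rcases hr m with e | e <;> rw [c, e] <;>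
      (exfalso; rw [c, e] at h3 h4; push_cast at h3 h4; linarith)
  have hall : ∀ i, (h (N + i) : ℝ) - 4 ^ (N + i) * η = (h (M + i) : ℝ) - 4 ^ (M + i) * η := by
    intro i
    induction i with
    | zero => exact htail
    | succ i ih =>
      rw [← add_assoc, ← add_assoc, hstep, hstep, hdig _ _ ih, ih]
  rcases lt_or_gt_of_ne hne with hlt | hlt
  · obtain ⟨i, hi⟩ := hper N M hlt
    exact hi (hdig _ _ (hall i))
  · obtain ⟨i, hi⟩ := hper M N hlt
    exact hi (hdig _ _ (hall i)).symm

/-! ### The rational map over `k(t)` -/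

section Map

variable (k : Type*) [Field k] [CharP k 2]

/-- the embedding `𝔽₂[t] → k(t)` -/
noncomputable def emb : R →+* RatFunc k :=
  (algebraMap k[X] (RatFunc k)).comp (Polynomial.mapRingHom (ZMod.castHom (dvd_refl 2) k))

theorem emb_inj : Function.Injective (emb k) := by
  unfold emb
  rw [RingHom.coe_comp]
  exact (RatFunc.algebraMap_injective k).comp
    (Polynomial.map_injective _ (ZMod.castHom (dvd_refl 2) k).injective)

theorem emb_X : emb k X = RatFunc.X := by
  unfold emb
  simp

theorem height_emb (a b : R) (hab : IsCoprime a b) (ha : a ≠ 0) (hb : b ≠ 0) :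
    height ((emb k a / emb k b : RatFunc k) : OnePoint (RatFunc k)) =
      max a.natDegree b.natDegree := by
  set φ := ZMod.castHom (dvd_refl 2) k with hφ
  have hcop : IsCoprime (a.map φ) (b.map φ) := hab.map (Polynomial.mapRingHom φ)
  have ha' : a.map φ ≠ 0 := (Polynomial.map_ne_zero_iff φ.injective).2 ha
  have hb' : b.map φ ≠ 0 := (Polynomial.map_ne_zero_iff φ.injective).2 hb
  set x : RatFunc k := emb k a / emb k b with hx
  have hx' : x = algebraMap k[X] (RatFunc k) (a.map φ) / algebraMap k[X] (RatFunc k) (b.map φ) := rfl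
  have hx0 : x ≠ 0 := by
    rw [hx']
    exact div_ne_zero (RatFunc.algebraMap_ne_zero ha') (RatFunc.algebraMap_ne_zero hb')
  have h1 := RatFunc.num_div_denom x
  have h2 : x.num * b.map φ = a.map φ * x.denom := by
    apply RatFunc.algebraMap_injective k
    rw [map_mul, map_mul]
    have hd : algebraMap k[X] (RatFunc k) x.denom ≠ 0 :=
      RatFunc.algebraMap_ne_zero (RatFunc.denom_ne_zero x)
    have hb'' : algebraMap k[X] (RatFunc k) (b.map φ) ≠ 0 := RatFunc.algebraMap_ne_zero hb'
    rw [← div_eq_div_iff hd hb'', h1, hx']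
  have hcx := RatFunc.isCoprime_num_denom x
  have hn0 : x.num ≠ 0 := RatFunc.num_ne_zero hx0
  have hd0 : x.denom ≠ 0 := RatFunc.denom_ne_zero x
  have d1 : x.num ∣ a.map φ := hcx.dvd_of_dvd_mul_right (by rw [← h2]; exact dvd_mul_right _ _)
  have d2 : a.map φ ∣ x.num := hcop.dvd_of_dvd_mul_right (by rw [h2]; exact dvd_mul_right _ _)
  have d3 : x.denom ∣ b.map φ :=
    hcx.symm.dvd_of_dvd_mul_left (by rw [h2]; exact dvd_mul_left _ _)
  have d4 : b.map φ ∣ x.denom :=
    hcop.symm.dvd_of_dvd_mul_left (by rw [← h2]; exact dvd_mul_left _ _)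
  have e1 : x.num.natDegree = a.natDegree := by
    rw [← Polynomial.natDegree_map_eq_of_injective φ.injective a]
    exact le_antisymm (natDegree_le_of_dvd d1 ha') (natDegree_le_of_dvd d2 hn0)
  have e2 : x.denom.natDegree = b.natDegree := by
    rw [← Polynomial.natDegree_map_eq_of_injective φ.injective b]
    exact le_antisymm (natDegree_le_of_dvd d3 hb') (natDegree_le_of_dvd d4 hd0)
  change max x.num.natDegree x.denom.natDegree = _
  rw [e1, e2]

/-- The rational map `Φ(z) = (z (z + 1) (z² + t) + t²) / (t (z² + t))`, that is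
`Φ(z) = z (z + 1) / t + t / (z² + t)`. -/
noncomputable def Phi : RationalMap (RatFunc k) 4 where
  num := X * (X + 1) * (X ^ 2 + C RatFunc.X) + C (RatFunc.X ^ 2)
  den := C RatFunc.X * (X ^ 2 + C RatFunc.X)
  coprime := by
    have ht : (RatFunc.X : RatFunc k) ≠ 0 := RatFunc.X_ne_zero
    have hu : IsUnit (C (RatFunc.X : RatFunc k)) := Polynomial.isUnit_C.2 (isUnit_iff_ne_zero.2 ht)
    have hu2 : IsUnit (C ((RatFunc.X : RatFunc k) ^ 2)) :=
      Polynomial.isUnit_C.2 (isUnit_iff_ne_zero.2 (pow_ne_zero 2 ht))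
    refine IsCoprime.mul_right ?_ ?_
    · exact isCoprime_one_right.of_isCoprime_of_dvd_right (isUnit_iff_dvd_one.1 hu)
    · have e : (X * (X + 1) * (X ^ 2 + C RatFunc.X) + C (RatFunc.X ^ 2) : (RatFunc k)[X]) =
        C (RatFunc.X ^ 2) + (X ^ 2 + C RatFunc.X) * (X * (X + 1)) := by ring
      rw [e]
      exact (isCoprime_one_left.of_isCoprime_of_dvd_left
        (isUnit_iff_dvd_one.1 hu2)).add_mul_left_left _
  degree_eq := by
    have ht : (RatFunc.X : RatFunc k) ≠ 0 := RatFunc.X_ne_zero
    have h1 : (X * (X + 1) * (X ^ 2 + C RatFunc.X) + C (RatFunc.X ^ 2) :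
        (RatFunc k)[X]).natDegree = 4 := by compute_degree!
    have h2 : (C RatFunc.X * (X ^ 2 + C RatFunc.X) : (RatFunc k)[X]).natDegree ≤ 2 := by
      compute_degree
    rw [h1]
    omega

theorem orbit (n : ℕ) : (Phi k).map^[n] ((RatFunc.X ^ 2 : RatFunc k) : OnePoint (RatFunc k)) =
    ((emb k (st n).1 / emb k (st n).2 : RatFunc k) : OnePoint (RatFunc k)) := by
  induction n with
  | zero =>
    simp [st, s0, emb_X]
  | succ n ih =>
    rw [Function.iterate_succ_apply', ih, st_succ]
    have hs := st_inv n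
    set s := st n with hsn
    set x : RatFunc k := emb k s.1 / emb k s.2 with hx
    have hb : emb k s.2 ≠ 0 := (map_ne_zero_iff _ (emb_inj k)).2 (ne_zero_right s hs)
    have hB : emb k (step s).2 ≠ 0 := (map_ne_zero_iff _ (emb_inj k)).2 (step_ne_zero s hs)
    have ht : (RatFunc.X : RatFunc k) ≠ 0 := RatFunc.X_ne_zero
    have e0 : emb k (F0 s) = RatFunc.X ^ dig s * emb k (step s).1 := by
      rw [F0_step s hs, map_mul, map_pow, emb_X]
    have e1 : emb k (F1 s) = RatFunc.X ^ dig s * emb k (step s).2 := by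
      rw [F1_step s, map_mul, map_pow, emb_X]
    have f0 : (Phi k).num.eval x = emb k (F0 s) / emb k s.2 ^ 4 := by
      simp only [Phi, F0, eval_add, eval_mul, eval_pow, eval_X, eval_C, eval_one, map_add, map_mul,
        map_pow, emb_X, hx]
      field_simp
    have f1 : (Phi k).den.eval x = emb k (F1 s) / emb k s.2 ^ 4 := by
      simp only [Phi, F1, eval_add, eval_mul, eval_pow, eval_X, eval_C, map_add, map_mul,
        map_pow, emb_X, hx]
      field_simp
    have hden : (Phi k).den.eval x ≠ 0 := by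
      rw [f1, e1]
      exact div_ne_zero (mul_ne_zero (pow_ne_zero _ ht) hB) (pow_ne_zero _ hb)
    have hmap : (Phi k).map (x : OnePoint (RatFunc k)) =
        (((Phi k).num.eval x / (Phi k).den.eval x : RatFunc k) : OnePoint (RatFunc k)) := by
      classical
      exact if_neg hden
    rw [hmap, f0, f1, e0, e1]
    congr 1
    have hXd : (RatFunc.X : RatFunc k) ^ dig s ≠ 0 := pow_ne_zero _ ht
    field_simp

end Map

/-- For every field `k` of characteristic `2` there are a rational map `Φ` of degree `4` over the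
rational function field `k(t)` and a point `P ∈ ℙ¹(k(t))` whose canonical height is irrational. -/
theorem result (k : Type*) [Field k] [CharP k 2] :
    ∃ (Φ : RationalMap (RatFunc k) 4) (P : OnePoint (RatFunc k)) (η : ℝ),
      IsCanonicalHeight Φ P η ∧ Irrational η := by
  obtain ⟨η, h1, h2⟩ := limit_exists ht (fun n => dig (st n)) (fun n => dig_cases _) ht_succ
  refine ⟨Phi k, ((RatFunc.X ^ 2 : RatFunc k) : OnePoint (RatFunc k)), η, ?_, ?_⟩
  · unfold IsCanonicalHeight
    refine h1.congr fun n => ?_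
    rw [orbit, height_emb k _ _ (st_inv n).cop (ne_zero_left _ (st_inv n))
      (ne_zero_right _ (st_inv n)), max_eq_left (by have := (st_inv n).deg; omega)]
    simp [ht]
  · exact irrational_of ht (fun n => dig (st n)) (fun n => dig_cases _) ht_succ not_periodic η h2

end Pool.Agent.Results.MP_e8c887_nt.IrrationalHeight
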